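import Mathlib

set_option autoImplicit false

namespace Pool.Agent.Results.MP_d6b6f7_nt.EquivalentForms

open NumberField

section Defs

variable {K : Type} [Field K]

/-- Totally positive algebraic integers of a totally real field: positive under every
embedding in `ℝ`. -/
def TotPos (γ : 𝓞 K) : Prop := ∀ φ : K →+* ℝ, 0 < φ (γ : K)

/-- Indecomposable: totally positive and not the sum of two totally positive integers. -/
def Indecomposable (α : 𝓞 K) : Prop :=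
  TotPos α ∧ ¬ ∃ β γ : 𝓞 K, TotPos β ∧ TotPos γ ∧ α = β + γ

/-- `γ ↦ γ'` on the ring of integers, for the automorphism `σ` of `K`. -/
def conj (σ : K ≃+* K) (γ : 𝓞 K) : 𝓞 K := RingOfIntegers.mapRingEquiv σ γ

/-- Admissible pairs. -/
def Admissible (σ : K ≃+* K) (α β : 𝓞 K) : Prop :=
  Indecomposable α ∧ Indecomposable β ∧
    (¬ ∃ ε : (𝓞 K)ˣ, β = (ε : 𝓞 K) * α) ∧ (¬ ∃ ε : (𝓞 K)ˣ, β = (ε : 𝓞 K) * conj σ α) ∧
    ∀ η : 𝓞 K, β ≠ α * η ^ 2 ∧ β ≠ conj σ α * η ^ 2 ∧ α ≠ β * η ^ 2 ∧ α ≠ conj σ β * η ^ 2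

/-- The form `Q_{α,m}(x,y) = α x² + 2 m x y + α' y²`. -/
def Q (σ : K ≃+* K) (α : 𝓞 K) (m : ℤ) (x y : 𝓞 K) : 𝓞 K :=
  α * x ^ 2 + 2 * (m : 𝓞 K) * x * y + conj σ α * y ^ 2

/-- Equivalence of binary forms over `𝓞 K`. -/
def Equivalent (F G : 𝓞 K → 𝓞 K → 𝓞 K) : Prop :=
  ∃ M : Matrix.GeneralLinearGroup (Fin 2) (𝓞 K), ∀ x y : 𝓞 K,
    G x y = F (M.1 0 0 * x + M.1 0 1 * y) (M.1 1 0 * x + M.1 1 1 * y)

end Defs

section Field127

instance fact127 : Fact (∀ r : ℚ, r ^ 2 ≠ (127 : ℚ) + (0 : ℚ) * r) := ⟨by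
  intro r hr
  have h1 : r ^ 2 = 127 := by linarith
  have h2 : Irrational (Real.sqrt 127) := by
    have := Nat.Prime.irrational_sqrt (p := 127) (by norm_num)
    simpa using this
  apply h2
  have h3 : Real.sqrt 127 = |(r : ℝ)| := by
    rw [← Real.sqrt_sq_eq_abs]
    congr 1
    exact_mod_cast h1.symm
  exact ⟨|r|, by rw [h3]; push_cast; rfl⟩⟩

/-- The field `ℚ(√127)`. -/
abbrev L : Type := QuadraticAlgebra ℚ (127 : ℚ) (0 : ℚ)

instance : CharZero L := inferInstance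

instance nfL : NumberField L where
  to_charZero := inferInstance
  to_finiteDimensional := by
    have h : FiniteDimensional ℚ L := inferInstance
    convert h

lemma finrankL : Module.finrank ℚ L = 2 := by
  have h := QuadraticAlgebra.finrank_eq_two (R := ℚ) (127 : ℚ) (0 : ℚ)
  convert h

/-- Conjugation `a + b√127 ↦ a - b√127`. -/
noncomputable def σL : L ≃+* L := starRingAut

lemma σL_mk (a b : ℚ) : σL (⟨a, b⟩ : L) = ⟨a, -b⟩ := by
  have h : σL (⟨a, b⟩ : L) = star (⟨a, b⟩ : L) := rfl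
  rw [h, QuadraticAlgebra.star_mk]
  ext
  · simp
  · simp

lemma σL_ne : σL ≠ RingEquiv.refl L := by
  intro h
  have h1 : σL (⟨0, 1⟩ : L) = ⟨0, 1⟩ := by rw [h]; rfl
  rw [σL_mk] at h1
  have h2 := congrArg QuadraticAlgebra.im h1
  norm_num at h2

lemma emb_apply (φ : L →+* ℝ) (a b : ℚ) :
    φ (⟨a, b⟩ : L) = (a : ℝ) + (b : ℝ) * φ (⟨0, 1⟩ : L) := by
  have h : (⟨a, b⟩ : L) = algebraMap ℚ L a + algebraMap ℚ L b * ⟨0, 1⟩ := by
    ext <;> simp
  rw [h, map_add, map_mul]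
  have h2 : ∀ q : ℚ, φ (algebraMap ℚ L q) = (q : ℝ) := by
    intro q
    simp
  rw [h2, h2]

lemma am (q : ℚ) : algebraMap ℚ L q = ⟨q, 0⟩ := rfl

lemma om_sq : (⟨0, 1⟩ : L) ^ 2 = ((127 : ℤ) : L) := by
  rw [pow_two]
  ext
  · show (0 : ℚ) * 0 + 127 * 1 * 1 = ((127 : ℤ) : ℚ)
    norm_num
  · show (0 : ℚ) * 1 + 1 * 0 + 0 * 1 * 1 = 0
    norm_num

lemma emb_sq (φ : L →+* ℝ) : φ (⟨0, 1⟩ : L) ^ 2 = 127 := by
  rw [← map_pow, om_sq, map_intCast]
  norm_num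

/-- The embedding `√127 ↦ s` for a square root `s` of `127`. -/
noncomputable def emb (s : ℝ) (hs : s * s = 127) : L →+* ℝ :=
  ((QuadraticAlgebra.lift (R := ℚ) (a := 127) (b := 0) (A := ℝ)
    ⟨s, by rw [hs]; simp⟩ : QuadraticAlgebra ℚ (127 : ℚ) (0 : ℚ) →ₐ[ℚ] ℝ)).toRingHom

lemma emb_mk (s : ℝ) (hs : s * s = 127) (a b : ℚ) : emb s hs (⟨a, b⟩ : L) = a + b * s := by
  have : emb s hs (⟨a, b⟩ : L) = a • (1 : ℝ) + b • s := rfl
  rw [this]
  simp [Rat.smul_def]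

lemma isIntegral_mk (a b : ℤ) : IsIntegral ℤ (⟨a, b⟩ : L) := by
  have hω : IsIntegral ℤ (⟨0, 1⟩ : L) := by
    refine ⟨Polynomial.X ^ 2 - Polynomial.C 127, Polynomial.monic_X_pow_sub_C _ (by norm_num), ?_⟩
    rw [Polynomial.eval₂_sub, Polynomial.eval₂_pow, Polynomial.eval₂_X, Polynomial.eval₂_C, om_sq]
    simp
  have h : (⟨a, b⟩ : L) = (a : L) + (b : L) * ⟨0, 1⟩ := by
    ext <;> simp
  rw [h]
  exact (isIntegral_algebraMap (R := ℤ) (A := L) (x := a)).add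
    ((isIntegral_algebraMap (R := ℤ) (A := L) (x := b)).mul hω)

/-- The integer `a + b√127`. -/
noncomputable def mkI (a b : ℤ) : 𝓞 L := ⟨⟨a, b⟩, isIntegral_mk a b⟩

lemma coe_mkI (a b : ℤ) : ((mkI a b : 𝓞 L) : L) = ⟨a, b⟩ := rfl

lemma rat_int (q : ℚ) (h : IsIntegral ℤ (algebraMap ℚ L q)) : ∃ n : ℤ, q = n := by
  have h1 : IsIntegral ℤ q := (isIntegral_algebraMap_iff (algebraMap ℚ L).injective).1 h
  obtain ⟨n, hn⟩ := IsIntegrallyClosed.isIntegral_iff.1 h1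
  exact ⟨n, by simpa using hn.symm⟩

lemma rat_sq_int (q : ℚ) (k : ℤ) (h : q ^ 2 = k) : ∃ n : ℤ, q = n := by
  have h1 : IsIntegral ℤ q := by
    refine ⟨Polynomial.X ^ 2 - Polynomial.C k, Polynomial.monic_X_pow_sub_C _ (by norm_num), ?_⟩
    rw [Polynomial.eval₂_sub, Polynomial.eval₂_pow, Polynomial.eval₂_X, Polynomial.eval₂_C, h]
    simp
  obtain ⟨n, hn⟩ := IsIntegrallyClosed.isIntegral_iff.1 h1
  exact ⟨n, by simpa using hn.symm⟩

lemma exists_mkI (x : 𝓞 L) : ∃ a b : ℤ, x = mkI a b := by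
  obtain ⟨z, hz⟩ := x
  obtain ⟨re, im⟩ := z
  have hz1 : IsIntegral ℤ (⟨re, im⟩ : L) := hz
  have hz2 : IsIntegral ℤ (⟨re, -im⟩ : L) := by
    have := hz1.map (σL.toRingHom.toIntAlgHom)
    have h2 : (σL.toRingHom.toIntAlgHom) (⟨re, im⟩ : L) = ⟨re, -im⟩ := σL_mk re im
    rwa [h2] at this
  obtain ⟨t, ht⟩ := rat_int (2 * re) (by
    have h3 := hz1.add hz2
    have e : algebraMap ℚ L (2 * re) = (⟨re, im⟩ : L) + ⟨re, -im⟩ := by
      rw [am]
      ext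
      · simp; ring
      · simp
    rw [e]
    exact h3)
  obtain ⟨n, hn⟩ := rat_int (re ^ 2 - 127 * im ^ 2) (by
    have h3 := hz1.mul hz2
    have e : algebraMap ℚ L (re ^ 2 - 127 * im ^ 2) = (⟨re, im⟩ : L) * ⟨re, -im⟩ := by
      rw [am]
      ext
      · simp; ring
      · simp; ring
    rw [e]
    exact h3)
  obtain ⟨u, hu⟩ := rat_sq_int (127 * (2 * im)) (127 * (t ^ 2 - 4 * n)) (by
    push_cast
    rw [← ht, ← hn]
    ring)
  have hu2 : u ^ 2 = 127 * (t ^ 2 - 4 * n) := by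
    have : ((u ^ 2 : ℤ) : ℚ) = ((127 * (t ^ 2 - 4 * n) : ℤ) : ℚ) := by
      push_cast
      rw [← hu, ← ht, ← hn]
      ring
    exact_mod_cast this
  have h127 : (127 : ℤ) ∣ u := by
    have hp : Prime (127 : ℤ) := Int.prime_iff_natAbs_prime.2 (by norm_num)
    exact hp.dvd_of_dvd_pow (n := 2) ⟨_, hu2⟩
  obtain ⟨s, hs⟩ := h127
  have hs2 : 2 * im = s := by
    have : (127 : ℚ) * (2 * im) = 127 * s := by rw [hu, hs]; push_cast; ring
    linarith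
  have h4 : t ^ 2 - 127 * s ^ 2 = 4 * n := by
    rw [hs] at hu2
    nlinarith
  have hmod : (2 : ℤ) ∣ t ∧ (2 : ℤ) ∣ s := by
    have h5 : (t ^ 2 - 127 * s ^ 2) % 4 = 0 := by rw [h4]; omega
    rcases Int.even_or_odd' t with ⟨t', rfl | rfl⟩ <;>
      rcases Int.even_or_odd' s with ⟨s', rfl | rfl⟩
    · exact ⟨⟨t', rfl⟩, ⟨s', rfl⟩⟩
    · exfalso; ring_nf at h5; omega
    · exfalso; ring_nf at h5; omega
    · exfalso; ring_nf at h5; omega
  obtain ⟨⟨a, rfl⟩, ⟨b, rfl⟩⟩ := hmod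
  refine ⟨a, b, ?_⟩
  apply RingOfIntegers.ext
  show (⟨re, im⟩ : L) = ⟨a, b⟩
  have hre : re = a := by push_cast at ht; linarith
  have him : im = b := by push_cast at hs2; linarith
  rw [hre, him]

lemma mkI_inj {a b c d : ℤ} (h : mkI a b = mkI c d) : a = c ∧ b = d := by
  have h1 : ((mkI a b : 𝓞 L) : L) = ((mkI c d : 𝓞 L) : L) := by rw [h]
  rw [coe_mkI, coe_mkI] at h1
  have h2 := congrArg QuadraticAlgebra.re h1
  have h3 := congrArg QuadraticAlgebra.im h1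
  simp only at h2 h3
  exact ⟨by exact_mod_cast h2, by exact_mod_cast h3⟩

lemma mkI_add (a b c d : ℤ) : mkI a b + mkI c d = mkI (a + c) (b + d) := by
  apply RingOfIntegers.ext
  show (⟨a, b⟩ : L) + ⟨c, d⟩ = ⟨((a + c : ℤ) : ℚ), ((b + d : ℤ) : ℚ)⟩
  ext <;> simp

lemma mkI_mul (a b c d : ℤ) :
    mkI a b * mkI c d = mkI (a * c + 127 * b * d) (a * d + b * c) := by
  apply RingOfIntegers.ext
  show (⟨a, b⟩ : L) * ⟨c, d⟩ =
    ⟨((a * c + 127 * b * d : ℤ) : ℚ), ((a * d + b * c : ℤ) : ℚ)⟩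
  ext <;> simp

lemma conj_mkI (a b : ℤ) : conj σL (mkI a b) = mkI a (-b) := by
  apply RingOfIntegers.ext
  show σL (⟨a, b⟩ : L) = ⟨(a : ℚ), ((-b : ℤ) : ℚ)⟩
  rw [σL_mk]
  simp

lemma intCast_mkI (m : ℤ) : (m : 𝓞 L) = mkI m 0 := by
  apply RingOfIntegers.ext
  show algebraMap (𝓞 L) L (m : 𝓞 L) = ⟨(m : ℚ), ((0 : ℤ) : ℚ)⟩
  rw [map_intCast]
  ext <;> simp

lemma norm_mkI (a b : ℤ) : Algebra.norm ℤ (mkI a b) = a ^ 2 - 127 * b ^ 2 := by
  have h1 : (Algebra.norm ℤ (mkI a b) : ℚ) = Algebra.norm ℚ ((mkI a b : 𝓞 L) : L) :=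
    Algebra.coe_norm_int _
  have h2 : Algebra.norm ℚ (⟨a, b⟩ : L) = (a : ℚ) ^ 2 - 127 * (b : ℚ) ^ 2 := by
    have h3 := QuadraticAlgebra.det_toLinearMap_eq_norm (R := ℚ) (a := 127) (b := 0) ⟨a, b⟩
    rw [QuadraticAlgebra.norm_def] at h3
    simp only at h3
    rw [Algebra.norm_apply]
    have h4 : LinearMap.det ((Algebra.lmul ℚ L) (⟨a, b⟩ : L)) =
        LinearMap.det (DistribSMul.toLinearMap ℚ L (⟨a, b⟩ : L)) := by
      congr 1
    rw [h4]
    have h5 : LinearMap.det (DistribSMul.toLinearMap ℚ L (⟨a, b⟩ : L)) =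
        (a : ℚ) * a + 0 * a * b - 127 * b * b := by
      convert h3
    rw [h5]
    ring
  rw [coe_mkI, h2] at h1
  exact_mod_cast h1

lemma totPos_mkI (a b : ℤ) : TotPos (mkI a b) ↔ 0 < a ∧ 127 * b ^ 2 < a ^ 2 := by
  constructor
  · intro h
    have hs : Real.sqrt 127 * Real.sqrt 127 = 127 := Real.mul_self_sqrt (by norm_num)
    have h1 := h (emb (Real.sqrt 127) hs)
    have h2 := h (emb (-Real.sqrt 127) (by linarith))
    rw [coe_mkI, emb_mk] at h1 h2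
    push_cast at h1 h2
    have h3 : (0 : ℝ) < a := by linarith
    have h4 : (0 : ℝ) < (a + b * Real.sqrt 127) * (a + b * -Real.sqrt 127) := mul_pos h1 h2
    have h5 : (a + b * Real.sqrt 127) * (a + b * -Real.sqrt 127) = (a : ℝ) ^ 2 - 127 * b ^ 2 := by
      linear_combination (-(b : ℝ) ^ 2) * hs
    rw [h5] at h4
    refine ⟨by exact_mod_cast h3, ?_⟩
    have h6 : (127 : ℝ) * b ^ 2 < a ^ 2 := by linarith
    exact_mod_cast h6
  · rintro ⟨h1, h2⟩ φ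
    rw [coe_mkI, emb_apply]
    push_cast
    have hs := emb_sq φ
    set s := φ (⟨0, 1⟩ : L)
    have h1' : (0 : ℝ) < a := by exact_mod_cast h1
    have h2' : (127 : ℝ) * b ^ 2 < a ^ 2 := by exact_mod_cast h2
    by_contra hneg
    have h3 : (a : ℝ) ≤ -(b * s) := by linarith
    have h4 : (a : ℝ) ^ 2 ≤ (b * s) ^ 2 := by nlinarith
    have h5 : ((b : ℝ) * s) ^ 2 = 127 * b ^ 2 := by rw [mul_pow, hs]; ring
    linarith

/-- The integer `α = 12 + √127`. -/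
noncomputable def α : 𝓞 L := mkI 12 1

/-- The integer `β = 710 + 63√127`. -/
noncomputable def β : 𝓞 L := mkI 710 63

lemma indec_α : Indecomposable α := by
  refine ⟨(totPos_mkI 12 1).2 (by norm_num), ?_⟩
  rintro ⟨x, y, hx, hy, h⟩
  obtain ⟨a, b, rfl⟩ := exists_mkI x
  obtain ⟨c, d, rfl⟩ := exists_mkI y
  rw [totPos_mkI] at hx hy
  rw [mkI_add] at h
  obtain ⟨h1, h2⟩ := mkI_inj h
  have hb : b = 0 := by
    by_contra hb
    have : 1 ≤ b ^ 2 := by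
      have := sq_pos_of_ne_zero (R := ℤ) hb
      omega
    nlinarith [hx.1, hx.2, hy.1]
  have hd : d = 0 := by
    by_contra hb
    have : 1 ≤ d ^ 2 := by
      have := sq_pos_of_ne_zero (R := ℤ) hb
      omega
    nlinarith [hx.1, hy.2, hy.1]
  omega

lemma check710 : ∀ b : ℕ, b < 64 →
    710 < (Nat.sqrt (127 * b ^ 2) + 1) + (Nat.sqrt (127 * (63 - b) ^ 2) + 1) := by
  decide +kernel

lemma indec_β : Indecomposable β := by
  refine ⟨(totPos_mkI 710 63).2 (by norm_num), ?_⟩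
  rintro ⟨x, y, hx, hy, h⟩
  obtain ⟨a, b, rfl⟩ := exists_mkI x
  obtain ⟨c, d, rfl⟩ := exists_mkI y
  rw [totPos_mkI] at hx hy
  rw [mkI_add] at h
  obtain ⟨h1, h2⟩ := mkI_inj h
  obtain ⟨ha, hab⟩ := hx
  obtain ⟨hc, hcd⟩ := hy
  have hb0 : 0 ≤ b := by
    by_contra hb
    have h3 : 64 ≤ d := by omega
    have h4 : c < 710 := by omega
    nlinarith
  have hd0 : 0 ≤ d := by
    by_contra hb
    have h3 : 64 ≤ b := by omega
    have h4 : a < 710 := by omega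
    nlinarith
  obtain ⟨a', rfl⟩ := Int.eq_ofNat_of_zero_le ha.le
  obtain ⟨b', rfl⟩ := Int.eq_ofNat_of_zero_le hb0
  obtain ⟨c', rfl⟩ := Int.eq_ofNat_of_zero_le hc.le
  obtain ⟨d', rfl⟩ := Int.eq_ofNat_of_zero_le hd0
  have e1 : a' + c' = 710 := by omega
  have e2 : d' = 63 - b' := by omega
  have e3 : b' < 64 := by omega
  have f1 : 127 * b' ^ 2 < a' ^ 2 := by exact_mod_cast hab
  have f2 : 127 * d' ^ 2 < c' ^ 2 := by exact_mod_cast hcd
  have g1 : Nat.sqrt (127 * b' ^ 2) < a' := Nat.sqrt_lt'.2 f1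
  have g2 : Nat.sqrt (127 * d' ^ 2) < c' := Nat.sqrt_lt'.2 f2
  rw [e2] at g2
  have := check710 b' e3
  omega

lemma norm_α : Algebra.norm ℤ α = 17 := by
  rw [α, norm_mkI]; norm_num

lemma norm_β : Algebra.norm ℤ β = 37 := by
  rw [β, norm_mkI]; norm_num

lemma norm_conj (x : 𝓞 L) : Algebra.norm ℤ (conj σL x) = Algebra.norm ℤ x := by
  obtain ⟨a, b, rfl⟩ := exists_mkI x
  rw [conj_mkI, norm_mkI, norm_mkI]
  ring

lemma norm_unit (ε : (𝓞 L)ˣ) : Algebra.norm ℤ (ε : 𝓞 L) = 1 ∨ Algebra.norm ℤ (ε : 𝓞 L) = -1 := by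
  have h : IsUnit (Algebra.norm ℤ (ε : 𝓞 L)) := (Units.isUnit ε).map (Algebra.norm ℤ)
  exact Int.isUnit_iff.1 h

lemma admissible : Admissible σL α β := by
  refine ⟨indec_α, indec_β, ?_, ?_, ?_⟩
  · rintro ⟨ε, h⟩
    have h1 := congrArg (Algebra.norm ℤ) h
    rw [map_mul, norm_α, norm_β] at h1
    rcases norm_unit ε with h2 | h2 <;> rw [h2] at h1 <;> norm_num at h1
  · rintro ⟨ε, h⟩
    have h1 := congrArg (Algebra.norm ℤ) h
    rw [map_mul, norm_conj, norm_α, norm_β] at h1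
    rcases norm_unit ε with h2 | h2 <;> rw [h2] at h1 <;> norm_num at h1
  · intro η
    refine ⟨?_, ?_, ?_, ?_⟩
    · intro h
      have h1 := congrArg (Algebra.norm ℤ) h
      rw [map_mul, map_pow, norm_α, norm_β] at h1
      omega
    · intro h
      have h1 := congrArg (Algebra.norm ℤ) h
      rw [map_mul, map_pow, norm_conj, norm_α, norm_β] at h1
      omega
    · intro h
      have h1 := congrArg (Algebra.norm ℤ) h
      rw [map_mul, map_pow, norm_α, norm_β] at h1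
      omega
    · intro h
      have h1 := congrArg (Algebra.norm ℤ) h
      rw [map_mul, map_pow, norm_conj, norm_α, norm_β] at h1
      omega

lemma one_mkI : (1 : 𝓞 L) = mkI 1 0 := by
  have := intCast_mkI 1
  simpa using this

lemma two_mkI : (2 : 𝓞 L) = mkI 2 0 := by
  have := intCast_mkI 2
  simpa using this

lemma zero_mkI : (0 : 𝓞 L) = mkI 0 0 := by
  have := intCast_mkI 0
  simpa using this

lemma equivalent : Equivalent (Q σL α 4) (Q σL β 6) := by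
  have hdet : (!![mkI (-11) (-1), mkI 45 (-4); mkI 45 4, mkI (-11) 1] :
      Matrix (Fin 2) (Fin 2) (𝓞 L)).det = 1 := by
    rw [Matrix.det_fin_two_of, mkI_mul, mkI_mul, one_mkI, sub_eq_iff_eq_add, mkI_add]
    norm_num
  refine ⟨Matrix.GeneralLinearGroup.mk'' _ (by rw [hdet]; exact isUnit_one), ?_⟩
  intro x y
  show β * x ^ 2 + 2 * ((6 : ℤ) : 𝓞 L) * x * y + conj σL β * y ^ 2 =
    α * (mkI (-11) (-1) * x + mkI 45 (-4) * y) ^ 2 +
      2 * ((4 : ℤ) : 𝓞 L) * (mkI (-11) (-1) * x + mkI 45 (-4) * y) *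
        (mkI 45 4 * x + mkI (-11) 1 * y) +
      conj σL α * (mkI 45 4 * x + mkI (-11) 1 * y) ^ 2
  have E1 : α * (mkI (-11) (-1) * mkI (-11) (-1)) +
      mkI 8 0 * (mkI (-11) (-1) * mkI 45 4) + conj σL α * (mkI 45 4 * mkI 45 4) = β := by
    simp only [α, β, conj_mkI, mkI_mul, mkI_add]
    norm_num
  have E2 : α * (mkI 45 (-4) * mkI 45 (-4)) +
      mkI 8 0 * (mkI 45 (-4) * mkI (-11) 1) + conj σL α * (mkI (-11) 1 * mkI (-11) 1) =
        conj σL β := by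
    simp only [α, β, conj_mkI, mkI_mul, mkI_add]
    norm_num
  have E3 : mkI 2 0 * (α * (mkI (-11) (-1) * mkI 45 (-4))) +
      mkI 8 0 * (mkI (-11) (-1) * mkI (-11) 1 + mkI 45 (-4) * mkI 45 4) +
      mkI 2 0 * (conj σL α * (mkI 45 4 * mkI (-11) 1)) = mkI 12 0 := by
    simp only [α, β, conj_mkI, mkI_mul, mkI_add]
    norm_num
  rw [← intCast_mkI] at E1 E2
  rw [← intCast_mkI, ← intCast_mkI, ← intCast_mkI] at E3
  push_cast at E1 E2 E3 ⊢
  linear_combination (-x ^ 2) * E1 - y ^ 2 * E2 - x * y * E3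

end Field127

/-- Main theorem. There are a real quadratic field `K`, an admissible pair `(α, β)` of
indecomposable integers of `K` and nonzero integers `m`, `n` with `m² < N(α)`, `n² < N(β)` such
that `Q_{α,m}` and `Q_{β,n}` are equivalent over `𝓞 K`.  The proof takes `K = ℚ(√127)`,
`α = 12 + √127`, `m = 4`, `β = 710 + 63√127`, `n = 6`, and the matrix with rows
`(-11 - √127, 45 - 4√127)` and `(45 + 4√127, -11 + √127)`. -/
theorem result : ∃ (K : Type) (_ : Field K) (_ : NumberField K) (σ : K ≃+* K)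
    (α β : 𝓞 K) (m n : ℤ),
    Module.finrank ℚ K = 2 ∧ Nonempty (K →+* ℝ) ∧ σ ≠ RingEquiv.refl K ∧
    Admissible σ α β ∧
    0 < m ^ 2 ∧ m ^ 2 < Algebra.norm ℤ α ∧ 0 < n ^ 2 ∧ n ^ 2 < Algebra.norm ℤ β ∧
    Equivalent (Q σ α m) (Q σ β n) := by
  refine ⟨L, inferInstance, nfL, σL, α, β, 4, 6, finrankL,
    ⟨emb (Real.sqrt 127) (Real.mul_self_sqrt (by norm_num))⟩, σL_ne, admissible, by norm_num,
    ?_, by norm_num, ?_, equivalent⟩
  · rw [norm_α]; norm_num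
  · rw [norm_β]; norm_num

end Pool.Agent.Results.MP_d6b6f7_nt.EquivalentForms
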